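import Pool.Agent.U160.VP.Stm

/-!
# Exponential sums along random perturbations of the integers: definitions
-/

set_option autoImplicit false

namespace Pool.Agent.U803.EP

open MeasureTheory Finset
open Pool.Agent.U160.VP (ee)

noncomputable section

/-- the mean of `e(g(n + X))`, `X` with density `ρ` on `[0,1]` -/
def mn (ρ : ℝ → ℝ) (g : ℝ → ℝ) (n : ℕ) : ℂ := ∫ u in Set.Icc (0 : ℝ) 1, (ρ u : ℂ) * ee (g ((n : ℝ) + u))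

/-- the sum of `e(g(n + θ n))` minus its mean, `a ≤ n < b` -/
def dev (ρ : ℝ → ℝ) (θ : ℕ → ℝ) (g : ℝ → ℝ) (a b : ℕ) : ℂ :=
  ∑ n ∈ Finset.Ico a b, (ee (g ((n : ℝ) + θ n)) - mn ρ g n)

/-- the polynomial `∑ k_j N^(-B') (x - a)^(j + 1)` -/
def gk (B' N a : ℕ) {P : ℕ} (k : Fin P → ℤ) (x : ℝ) : ℝ :=
  ∑ j : Fin P, (k j : ℝ) / (N : ℝ) ^ B' * (x - a) ^ (j.val + 1)

/-- the deviations are small for all polynomials -/
def Gd (ρ : ℝ → ℝ) (θ : ℕ → ℝ) (P B B' : ℕ) (ε : ℝ) (N : ℕ) : Prop :=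
  ∀ a b : ℕ, a ≤ 2 * N → b ≤ 2 * N → ∀ k : Fin P → ℤ, (∀ j, |k j| ≤ (N : ℤ) ^ B) →
    ‖dev ρ θ (gk B' N a k) a b‖ ≤ (N : ℝ) ^ (1 / 2 + ε)

end

end Pool.Agent.U803.EP
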