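import Pool.Agent.U803.EP.Mean

/-!
# Exponential sums along random perturbations of the integers: smooth functions
-/

set_option autoImplicit false

namespace Pool.Agent.U803.EP

open MeasureTheory ProbabilityTheory Finset
open Pool.Agent.U160.VP
open scoped Nat

noncomputable section

theorem norm_ee_sub_le (x y : ℝ) : ‖ee x - ee y‖ ≤ 2 * Real.pi * |x - y| := by
  have h1 : ee x - ee y = ee y * (Complex.exp (Complex.I * ((2 * Real.pi * (x - y) : ℝ) : ℂ)) - 1) := by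
    have : Complex.exp (Complex.I * ((2 * Real.pi * (x - y) : ℝ) : ℂ)) = ee (x - y) := by
      unfold ee
      congr 1
      push_cast
      ring
    rw [this, mul_sub, mul_one, ← pkgD_ee_add]
    congr 2
    ring
  rw [h1, norm_mul, pkgD_ee_norm, one_mul]
  refine (Real.norm_exp_I_mul_ofReal_sub_one_le).trans (le_of_eq ?_)
  rw [Real.norm_eq_abs, abs_mul, abs_of_pos (by positivity)]

theorem dev_split (ρ : ℝ → ℝ) (θ : ℕ → ℝ) (f : ℝ → ℝ) {a b c : ℕ} (hab : a ≤ b) (hbc : b ≤ c) :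
    dev ρ θ f a c = dev ρ θ f a b + dev ρ θ f b c := by
  unfold dev
  rw [Finset.sum_Ico_consecutive _ hab hbc]

/-- integrability of the weighted exponential -/
theorem integrable_mn {ρ : ℝ → ℝ} {c : ℤ → ℂ} (hd : Dens ρ c) {f : ℝ → ℝ} (n : ℕ)
    (hf : ContinuousOn f (Set.Icc (n : ℝ) (n + 1))) :
    IntegrableOn (fun u : ℝ => (ρ u : ℂ) * ee (f ((n : ℝ) + u))) (Set.Icc (0 : ℝ) 1) := by
  have hf' : ContinuousOn (fun u : ℝ => f ((n : ℝ) + u)) (Set.Icc (0 : ℝ) 1) := by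
    refine hf.comp (by fun_prop) ?_
    rintro u ⟨hu1, hu2⟩
    exact ⟨by linarith, by linarith⟩
  have h1 : IntegrableOn (fun u : ℝ => (ρ u : ℂ)) (Set.Icc (0 : ℝ) 1) := (integrable_rho hd).ofReal
  refine Integrable.mul_bdd (c := 1) h1 ?_ ?_
  · exact (pkgD_ee_cont.comp_continuousOn hf').aestronglyMeasurable measurableSet_Icc
  · exact Filter.Eventually.of_forall fun u => (pkgD_ee_norm _).le

/-- comparison of the deviations of close functions -/
theorem dev_close {ρ : ℝ → ℝ} {c : ℤ → ℂ} (hd : Dens ρ c) {θ : ℕ → ℝ} (hθ : ∀ n, θ n ∈ Set.Icc (0 : ℝ) 1)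
    {f g : ℝ → ℝ} {a b : ℕ} {s η : ℝ} (hf : ContinuousOn f (Set.Icc (a : ℝ) b)) (hg : Continuous g)
    (hfg : ∀ x ∈ Set.Icc (a : ℝ) b, |f x - (s + g x)| ≤ η) :
    ‖dev ρ θ f a b‖ ≤ ‖dev ρ θ g a b‖ + 4 * Real.pi * η * ((b - a : ℕ) : ℝ) := by
  have hpi := Real.pi_pos
  have h1 : ∀ n ∈ Finset.Ico a b, ‖(ee (f ((n : ℝ) + θ n)) - mn ρ f n) -
      ee s * (ee (g ((n : ℝ) + θ n)) - mn ρ g n)‖ ≤ 4 * Real.pi * η := by
    intro n hn
    rw [mem_Ico] at hn
    have hn1 : (a : ℝ) ≤ n := by exact_mod_cast hn.1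
    have hn2 : (n : ℝ) + 1 ≤ b := by exact_mod_cast hn.2
    have hmem : ∀ u ∈ Set.Icc (0 : ℝ) 1, (n : ℝ) + u ∈ Set.Icc (a : ℝ) b := by
      rintro u ⟨hu1, hu2⟩
      exact ⟨by linarith, by linarith⟩
    have h2 : ∀ u ∈ Set.Icc (0 : ℝ) 1, ‖ee (f ((n : ℝ) + u)) - ee s * ee (g ((n : ℝ) + u))‖ ≤
        2 * Real.pi * η := by
      intro u hu
      rw [← pkgD_ee_add]
      exact (norm_ee_sub_le _ _).trans (mul_le_mul_of_nonneg_left (hfg _ (hmem u hu)) (by positivity))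
    have h3 : mn ρ f n - ee s * mn ρ g n = ∫ u in Set.Icc (0 : ℝ) 1,
        (ρ u : ℂ) * (ee (f ((n : ℝ) + u)) - ee s * ee (g ((n : ℝ) + u))) := by
      unfold mn
      rw [← integral_const_mul, ← integral_sub (integrable_mn hd n (hf.mono (Set.Icc_subset_Icc hn1 hn2)))
        ((integrable_mn hd n hg.continuousOn).const_mul _)]
      refine integral_congr_ae (Filter.Eventually.of_forall fun u => ?_)
      simp only
      ring
    have h4 : ‖mn ρ f n - ee s * mn ρ g n‖ ≤ 2 * Real.pi * η := by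
      rw [h3]
      have h5 : ∫ u in Set.Icc (0 : ℝ) 1, ρ u * (2 * Real.pi * η) = 2 * Real.pi * η := by
        rw [integral_mul_const, hd.mass, one_mul]
      rw [← h5]
      refine norm_integral_le_of_norm_le ((integrable_rho hd).mul_const _) ?_
      rw [ae_restrict_iff' measurableSet_Icc]
      refine Filter.Eventually.of_forall fun u hu => ?_
      rw [norm_mul, Complex.norm_real, Real.norm_of_nonneg (hd.nonneg u)]
      exact mul_le_mul_of_nonneg_left (h2 u hu) (hd.nonneg u)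
    have h6 := h2 (θ n) (hθ n)
    calc _ = ‖(ee (f ((n : ℝ) + θ n)) - ee s * ee (g ((n : ℝ) + θ n))) - (mn ρ f n - ee s * mn ρ g n)‖ := by
          congr 1; ring
      _ ≤ 2 * Real.pi * η + 2 * Real.pi * η := (norm_sub_le _ _).trans (add_le_add h6 h4)
      _ = _ := by ring
  have h7 : dev ρ θ f a b = ee s * dev ρ θ g a b + ∑ n ∈ Finset.Ico a b, ((ee (f ((n : ℝ) + θ n)) - mn ρ f n) -
      ee s * (ee (g ((n : ℝ) + θ n)) - mn ρ g n)) := by
    unfold dev
    rw [mul_sum, ← sum_add_distrib]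
    refine sum_congr rfl fun n _ => ?_
    ring
  rw [h7]
  refine (norm_add_le _ _).trans (add_le_add (le_of_eq ?_) ?_)
  · rw [norm_mul, pkgD_ee_norm, one_mul]
  · refine (norm_sum_le _ _).trans ((sum_le_card_nsmul _ _ _ h1).trans (le_of_eq ?_))
    rw [Nat.card_Ico, nsmul_eq_mul, mul_comm]

/-- Taylor's formula on a subinterval -/
theorem taylor_block {f : ℝ → ℝ} {L R a b C : ℝ} {n : ℕ} (hf : ContDiffOn ℝ (⊤ : ℕ∞) f (Set.Icc L R))
    (hLa : L ≤ a) (hab : a < b) (hbR : b ≤ R)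
    (hC : ∀ y ∈ Set.Icc L R, |iteratedDerivWithin (n + 1) f (Set.Icc L R) y| ≤ C) {x : ℝ} (hx : x ∈ Set.Icc a b) :
    |f x - ∑ k ∈ Finset.range (n + 1), ((k ! : ℝ)⁻¹ * (x - a) ^ k) * iteratedDerivWithin k f (Set.Icc L R) a| ≤
      C * (x - a) ^ (n + 1) := by
  have hsub : Set.Icc a b ⊆ Set.Icc L R := Set.Icc_subset_Icc hLa hbR
  have hLR : L < R := by linarith
  have heq : ∀ k : ℕ, ∀ y ∈ Set.Icc a b, iteratedDerivWithin k f (Set.Icc a b) y =
      iteratedDerivWithin k f (Set.Icc L R) y := by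
    intro k y hy
    rw [iteratedDerivWithin, iteratedDerivWithin,
      iteratedFDerivWithin_subset hsub (uniqueDiffOn_Icc hab) (uniqueDiffOn_Icc hLR)
        (hf.of_le (by exact_mod_cast le_top)) hy]
  have h1 := taylor_mean_remainder_bound (f := f) (n := n) hab.le ((hf.mono hsub).of_le (by exact_mod_cast le_top)) hx
    (C := C) (fun y hy => by
      rw [heq _ y hy, Real.norm_eq_abs]
      exact hC y (hsub hy))
  rw [taylor_within_apply, Real.norm_eq_abs] at h1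
  have h2 : ∀ k ∈ Finset.range (n + 1), ((k ! : ℝ)⁻¹ * (x - a) ^ k) • iteratedDerivWithin k f (Set.Icc a b) a =
      ((k ! : ℝ)⁻¹ * (x - a) ^ k) * iteratedDerivWithin k f (Set.Icc L R) a := by
    intro k _
    rw [heq k a (Set.left_mem_Icc.2 hab.le), smul_eq_mul]
  rw [sum_congr rfl h2] at h1
  refine h1.trans ?_
  have hC0 : 0 ≤ C := (abs_nonneg _).trans (hC a (hsub (Set.left_mem_Icc.2 hab.le)))
  have h3 : 0 ≤ (x - a) ^ (n + 1) := pow_nonneg (by linarith [hx.1]) _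
  refine div_le_self (mul_nonneg hC0 h3) ?_
  exact_mod_cast Nat.one_le_iff_ne_zero.2 (Nat.factorial_ne_zero n)

/-- approximation by the polynomials `gk` -/
theorem approx_block {f : ℝ → ℝ} {L R C D : ℝ} {n M a b : ℕ} (hf : ContDiffOn ℝ (⊤ : ℕ∞) f (Set.Icc L R))
    (hLa : L ≤ a) (hab : a < b) (hbR : (b : ℝ) ≤ R) (hM : 1 ≤ M) (hbM : b ≤ a + M)
    (hC : ∀ y ∈ Set.Icc L R, |iteratedDerivWithin (n + 1) f (Set.Icc L R) y| ≤ C)
    (hD : ∀ k ≤ n, |iteratedDerivWithin k f (Set.Icc L R) a| ≤ D) :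
    ∃ k : Fin n → ℤ, (∀ j, |(k j : ℝ)| ≤ (M : ℝ) ^ (n + 2) * D + 1) ∧ ∀ x ∈ Set.Icc (a : ℝ) b,
      |f x - (f a + gk (n + 2) M a k x)| ≤ C * ((b : ℝ) - a) ^ (n + 1) + n / (M : ℝ) ^ 2 := by
  have hM0 : (0 : ℝ) < M := by exact_mod_cast hM
  have hM1 : (1 : ℝ) ≤ M := by exact_mod_cast hM
  have hab' : (a : ℝ) < b := by exact_mod_cast hab
  obtain ⟨T, hT⟩ : ∃ T : Fin n → ℝ, T = fun j => ((j.val + 1)! : ℝ)⁻¹ *
    iteratedDerivWithin (j.val + 1) f (Set.Icc L R) a := ⟨_, rfl⟩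
  have hTD : ∀ j, |T j| ≤ D := by
    intro j
    rw [hT]
    simp only
    rw [abs_mul]
    have h1 : |(((j.val + 1)! : ℕ) : ℝ)⁻¹| ≤ 1 := by
      rw [abs_inv, abs_of_nonneg (by positivity)]
      apply inv_le_one_of_one_le₀
      exact_mod_cast Nat.one_le_iff_ne_zero.2 (Nat.factorial_ne_zero _)
    have h2 := hD (j.val + 1) (by omega)
    have h3 : 0 ≤ D := (abs_nonneg _).trans h2
    calc _ ≤ 1 * D := mul_le_mul h1 h2 (abs_nonneg _) zero_le_one
      _ = D := one_mul _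
  refine ⟨fun j => ⌊(M : ℝ) ^ (n + 2) * T j⌋, fun j => ?_, fun x hx => ?_⟩
  · have h1 := Int.floor_le ((M : ℝ) ^ (n + 2) * T j)
    have h2 := Int.lt_floor_add_one ((M : ℝ) ^ (n + 2) * T j)
    have h3 := abs_le.1 (hTD j)
    have h4 : (0 : ℝ) < (M : ℝ) ^ (n + 2) := by positivity
    have h5 : (M : ℝ) ^ (n + 2) * T j ≤ (M : ℝ) ^ (n + 2) * D := mul_le_mul_of_nonneg_left h3.2 h4.le
    have h6 : (M : ℝ) ^ (n + 2) * (-D) ≤ (M : ℝ) ^ (n + 2) * T j := mul_le_mul_of_nonneg_left h3.1 h4.le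
    rw [abs_le]
    constructor
    · linarith
    · linarith
  · have hx0 : 0 ≤ x - a := by linarith [hx.1]
    have hxM : x - a ≤ M := by
      have : (b : ℝ) ≤ a + M := by exact_mod_cast hbM
      linarith [hx.2]
    have h1 := taylor_block hf hLa hab' hbR hC hx
    have h2 : ∑ k ∈ Finset.range (n + 1), ((k ! : ℝ)⁻¹ * (x - a) ^ k) * iteratedDerivWithin k f (Set.Icc L R) a =
        f a + ∑ j : Fin n, T j * (x - a) ^ (j.val + 1) := by
      rw [Finset.sum_range_succ', Finset.sum_range, add_comm]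
      congr 1
      · simp
      · refine sum_congr rfl fun j _ => ?_
        rw [hT]
        ring
    rw [h2] at h1
    have h3 : |∑ j : Fin n, T j * (x - a) ^ (j.val + 1) - gk (n + 2) M a
        (fun j => ⌊(M : ℝ) ^ (n + 2) * T j⌋) x| ≤ n / (M : ℝ) ^ 2 := by
      unfold gk
      rw [← sum_sub_distrib]
      refine (abs_sum_le_sum_abs _ _).trans ?_
      have h4 : ∀ j ∈ (univ : Finset (Fin n)), |T j * (x - a) ^ (j.val + 1) -
          (⌊(M : ℝ) ^ (n + 2) * T j⌋ : ℝ) / (M : ℝ) ^ (n + 2) * (x - a) ^ (j.val + 1)| ≤ 1 / (M : ℝ) ^ 2 := by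
        intro j _
        rw [← sub_mul, abs_mul]
        have h5 : |T j - (⌊(M : ℝ) ^ (n + 2) * T j⌋ : ℝ) / (M : ℝ) ^ (n + 2)| ≤ 1 / (M : ℝ) ^ (n + 2) := by
          have h6 : T j - (⌊(M : ℝ) ^ (n + 2) * T j⌋ : ℝ) / (M : ℝ) ^ (n + 2) =
              ((M : ℝ) ^ (n + 2) * T j - ⌊(M : ℝ) ^ (n + 2) * T j⌋) / (M : ℝ) ^ (n + 2) := by
            field_simp
          rw [h6, abs_div, abs_of_pos (by positivity : (0 : ℝ) < (M : ℝ) ^ (n + 2))]
          refine div_le_div_of_nonneg_right ?_ (by positivity)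
          rw [abs_le]
          constructor
          · linarith [Int.floor_le ((M : ℝ) ^ (n + 2) * T j)]
          · linarith [Int.lt_floor_add_one ((M : ℝ) ^ (n + 2) * T j)]
        have h7 : |(x - a) ^ (j.val + 1)| ≤ (M : ℝ) ^ n := by
          rw [abs_of_nonneg (by positivity)]
          calc (x - a) ^ (j.val + 1) ≤ (M : ℝ) ^ (j.val + 1) := pow_le_pow_left₀ hx0 hxM _
            _ ≤ (M : ℝ) ^ n := pow_le_pow_right₀ hM1 (by omega)
        calc _ ≤ 1 / (M : ℝ) ^ (n + 2) * (M : ℝ) ^ n := mul_le_mul h5 h7 (abs_nonneg _) (by positivity)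
          _ = 1 / (M : ℝ) ^ 2 := by
              rw [pow_add]
              field_simp
      refine (sum_le_card_nsmul _ _ _ h4).trans (le_of_eq ?_)
      rw [card_univ, Fintype.card_fin, nsmul_eq_mul]
      ring
    have h8 : C * (x - a) ^ (n + 1) ≤ C * ((b : ℝ) - a) ^ (n + 1) := by
      have hC0 : 0 ≤ C := (abs_nonneg _).trans (hC a ⟨hLa, by linarith⟩)
      exact mul_le_mul_of_nonneg_left (pow_le_pow_left₀ hx0 (by linarith [hx.2]) _) hC0
    calc _ = |(f x - (f a + ∑ j : Fin n, T j * (x - a) ^ (j.val + 1))) +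
          (∑ j : Fin n, T j * (x - a) ^ (j.val + 1) - gk (n + 2) M a
        (fun j => ⌊(M : ℝ) ^ (n + 2) * T j⌋) x)| := by congr 1; ring
      _ ≤ _ := (abs_add_le _ _).trans (add_le_add (h1.trans h8) h3)

end

end Pool.Agent.U803.EP
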