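import Pool.Agent.U803.EP.Det

/-!
# Exponential sums along random perturbations of the integers: the exponent pair `(0, 0)`
-/

set_option autoImplicit false

namespace Pool.Agent.U803.EP

open MeasureTheory ProbabilityTheory Finset
open Pool.Agent.U160.VP
open scoped Nat

noncomputable section

theorem blocks {ρ : ℝ → ℝ} {θ : ℕ → ℝ} {f : ℝ → ℝ} {H A0 B0 : ℕ} (hH : 1 ≤ H) {K1 : ℝ} (hK : 0 ≤ K1)
    (h : ∀ a b, A0 ≤ a → a < b → b ≤ B0 → b ≤ a + H → ‖dev ρ θ f a b‖ ≤ K1) :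
    ∀ n a : ℕ, A0 ≤ a → a + n ≤ B0 → ‖dev ρ θ f a (a + n)‖ ≤ ((n : ℝ) / H + 1) * K1 := by
  intro n
  induction n using Nat.strong_induction_on with
  | _ n ih =>
    intro a ha hb
    have hH0 : (0 : ℝ) < H := by exact_mod_cast hH
    by_cases hn : n ≤ H
    · have h1 : K1 ≤ ((n : ℝ) / H + 1) * K1 := by
        have : (0 : ℝ) ≤ (n : ℝ) / H := by positivity
        nlinarith
      rcases Nat.eq_zero_or_pos n with h0 | h0
      · rw [h0]
        simp only [dev, add_zero, Ico_self, sum_empty, norm_zero]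
        positivity
      · exact (h a (a + n) ha (by omega) hb (by omega)).trans h1
    · push Not at hn
      obtain ⟨q, rfl⟩ : ∃ q, n = H + q := ⟨n - H, by omega⟩
      rw [dev_split ρ θ f (by omega : a ≤ a + H) (by omega : a + H ≤ a + (H + q))]
      have h1 := h a (a + H) ha (by omega) (by omega) le_rfl
      have h2 := ih q (by omega) (a + H) (by omega) (by omega)
      rw [show a + H + q = a + (H + q) by ring] at h2
      refine (norm_add_le _ _).trans ((add_le_add h1 h2).trans (le_of_eq ?_))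
      push_cast
      field_simp
      ring

/-- the sign of a continuous function bounded away from zero -/
theorem sign_const {g : ℝ → ℝ} {L R m : ℝ} (hg : ContinuousOn g (Set.Icc L R)) (hm : 0 < m)
    (h : ∀ x ∈ Set.Icc L R, m ≤ |g x|) : (∀ x ∈ Set.Icc L R, m ≤ g x) ∨ ∀ x ∈ Set.Icc L R, g x ≤ -m := by
  by_contra hcon
  push Not at hcon
  obtain ⟨⟨x, hx, hx1⟩, y, hy, hy1⟩ := hcon
  have hx2 : g x < 0 := by
    by_contra h0
    push Not at h0
    have := h x hx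
    rw [abs_of_nonneg h0] at this
    linarith
  have hy2 : 0 < g y := by
    by_contra h0
    push Not at h0
    have := h y hy
    rw [abs_of_nonpos h0] at this
    linarith
  have h1 := (isPreconnected_Icc : IsPreconnected (Set.Icc L R)).intermediate_value hx hy hg
  obtain ⟨z, hz, hz0⟩ := h1 ⟨hx2.le, hy2.le⟩
  have := h z hz
  rw [hz0, abs_zero] at this
  linarith

theorem hasDerivAt_iter {f : ℝ → ℝ} {L R : ℝ} (hf : ContDiffOn ℝ (⊤ : ℕ∞) f (Set.Icc L R)) (k : ℕ) {x : ℝ}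
    (hx : x ∈ Set.Ioo L R) : HasDerivAt (iteratedDerivWithin k f (Set.Icc L R))
      (iteratedDerivWithin (k + 1) f (Set.Icc L R) x) x := by
  have hLR : L < R := hx.1.trans hx.2
  have h1 := (hf.differentiableOn_iteratedDerivWithin (m := k) (by exact_mod_cast WithTop.coe_lt_top k)
    (uniqueDiffOn_Icc hLR) x (Set.Ioo_subset_Icc_self hx)).hasDerivWithinAt
  rw [← iteratedDerivWithin_succ] at h1
  exact h1.hasDerivAt (Icc_mem_nhds hx.1 hx.2)

theorem cont_iter {f : ℝ → ℝ} {L R : ℝ} (hf : ContDiffOn ℝ (⊤ : ℕ∞) f (Set.Icc L R)) (hLR : L < R) (k : ℕ) :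
    ContinuousOn (iteratedDerivWithin k f (Set.Icc L R)) (Set.Icc L R) :=
  hf.continuousOn_iteratedDerivWithin (m := k) (by exact_mod_cast le_top) (uniqueDiffOn_Icc hLR)

theorem det {ρ : ℝ → ℝ} {c : ℤ → ℂ} (hd : Dens ρ c) {θ : ℕ → ℝ} (hθ : ∀ n, θ n ∈ Set.Icc (0 : ℝ) 1)
    (hG : ∀ P B B' r : ℕ, ∀ᶠ N : ℕ in Filter.atTop, Gd ρ θ P B B' (1 / ((r : ℝ) + 1)) N) :
    ∀ ε : ℝ, 0 < ε → ∀ cc CC : ℕ → ℝ, (∀ j, 0 < cc j) → (∀ j, 0 < CC j) →
      ∃ K : ℝ, ∀ N N' F : ℝ, ∀ f : ℝ → ℝ, 2 ≤ N → N ≤ N' → N' ≤ 2 * N → N ≤ F →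
        ContDiffOn ℝ (⊤ : ℕ∞) f (Set.Icc N (2 * N)) →
        (∀ j : ℕ, ∀ x ∈ Set.Icc N (2 * N),
            cc j * F / N ^ j ≤ |iteratedDerivWithin j f (Set.Icc N (2 * N)) x| ∧
            |iteratedDerivWithin j f (Set.Icc N (2 * N)) x| ≤ CC j * F / N ^ j) →
        ‖∑ n ∈ Finset.Ico ⌈N⌉₊ ⌊N'⌋₊, ee (f ((n : ℝ) + θ n))‖ ≤ K * N ^ (1 / 2 : ℝ) * F ^ ε := by
  intro ε hε cc CC hcc hCC
  obtain ⟨r, hr⟩ : ∃ r : ℕ, 2 / ((r : ℝ) + 1) ≤ ε := by
    obtain ⟨r, hr⟩ := exists_nat_ge (2 / ε)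
    refine ⟨r, ?_⟩
    rw [div_le_iff₀ hε] at hr
    rw [div_le_iff₀ (by positivity)]
    nlinarith
  obtain ⟨δ, hδ⟩ : ∃ δ : ℝ, δ = 1 / ((r : ℝ) + 1) := ⟨_, rfl⟩
  have hδ0 : 0 < δ := by rw [hδ]; positivity
  have hδ1 : δ ≤ 1 := by
    rw [hδ, div_le_one (by positivity)]
    have : (0 : ℝ) ≤ r := Nat.cast_nonneg r
    linarith
  have hδε : 2 * δ ≤ ε := by
    have : 2 * δ = 2 / ((r : ℝ) + 1) := by rw [hδ]; ring
    rw [this]; exact hr
  obtain ⟨A, hA⟩ : ∃ A : ℕ, 1 / 2 ≤ ε * A := by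
    obtain ⟨A, hA⟩ := exists_nat_ge (1 / (2 * ε))
    refine ⟨A, ?_⟩
    rw [div_le_iff₀ (by positivity)] at hA
    linarith
  obtain ⟨P, hP⟩ : ∃ P : ℕ, (A : ℝ) + 1 ≤ δ * ((P : ℝ) + 1) := by
    obtain ⟨P, hP⟩ := exists_nat_ge (((A : ℝ) + 1) / δ)
    refine ⟨P, ?_⟩
    rw [div_le_iff₀ hδ0] at hP
    nlinarith
  obtain ⟨N₀, hN₀⟩ := Filter.eventually_atTop.1 (hG P (P + 2 + A + 1) (P + 2) r)
  rw [← hδ] at hN₀
  obtain ⟨Cm, hCm⟩ : ∃ Cm : ℝ, Cm = ∑ j ∈ Finset.range (P + 1), CC j := ⟨_, rfl⟩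
  have hCm0 : 0 ≤ Cm := by rw [hCm]; exact sum_nonneg fun j _ => (hCC j).le
  obtain ⟨M₀, hM₀⟩ : ∃ M₀ : ℕ, M₀ = N₀ + ⌈Cm⌉₊ + 1 := ⟨_, rfl⟩
  obtain ⟨K2, hK2⟩ : ∃ K2 : ℝ, K2 = 4 * Real.pi * (CC (P + 1) * 2 ^ (P + 2) + P) := ⟨_, rfl⟩
  have hK20 : 0 ≤ K2 := by
    rw [hK2]
    have := hCC (P + 1)
    have := Real.pi_pos
    positivity
  obtain ⟨Λ, hΛ⟩ : ∃ Λ : ℝ, Λ = ∑' h, ‖c h‖ := ⟨_, rfl⟩
  have hΛ0 : 0 ≤ Λ := by rw [hΛ]; exact tsum_nonneg fun h => norm_nonneg _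
  have hs2 : 0 < Real.sqrt (cc 2) := Real.sqrt_pos.2 (hcc 2)
  refine ⟨2 * (4 + K2) + Λ * (8 / Real.sqrt (cc 2)) + M₀ + 1, ?_⟩
  intro N N' F f hN hNN' hN'2 hNF hf hbd
  have hN0 : 0 < N := by linarith
  have hN1 : 1 ≤ N := by linarith
  have hF0 : 0 < F := by linarith
  have hF1 : 1 ≤ F := by linarith
  have hNh : 1 ≤ N ^ (1 / 2 : ℝ) := Real.one_le_rpow hN1 (by norm_num)
  have hFε : 1 ≤ F ^ ε := Real.one_le_rpow hF1 hε.le
  obtain ⟨Y, hY⟩ : ∃ Y : ℝ, Y = N ^ (1 / 2 : ℝ) * F ^ ε := ⟨_, rfl⟩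
  have hY1 : 1 ≤ Y := by rw [hY]; nlinarith
  have hYN : N ^ (1 / 2 : ℝ) ≤ Y := by rw [hY]; nlinarith
  rw [mul_assoc, ← hY]
  obtain ⟨a, ha⟩ : ∃ a, a = ⌈N⌉₊ := ⟨_, rfl⟩
  obtain ⟨b, hb⟩ : ∃ b, b = ⌊N'⌋₊ := ⟨_, rfl⟩
  have haN : N ≤ a := by rw [ha]; exact Nat.le_ceil N
  have haN1 : (a : ℝ) < N + 1 := by rw [ha]; exact Nat.ceil_lt_add_one hN0.le
  have hbN : (b : ℝ) ≤ N' := by rw [hb]; exact Nat.floor_le (by linarith)
  rw [← ha, ← hb]
  have hterm1 : 0 ≤ 2 * (4 + K2) := by positivity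
  have hterm2 : 0 ≤ Λ * (8 / Real.sqrt (cc 2)) := by positivity
  have hM₀0 : (0 : ℝ) ≤ M₀ := Nat.cast_nonneg _
  rcases lt_or_ge b a with hba | hab
  · rw [Finset.Ico_eq_empty (by omega), sum_empty, norm_zero]
    positivity
  have htriv : ‖∑ n ∈ Finset.Ico a b, ee (f ((n : ℝ) + θ n))‖ ≤ N := by
    refine (norm_sum_le _ _).trans ?_
    simp only [pkgD_ee_norm, sum_const, Nat.card_Ico, nsmul_eq_mul, mul_one]
    rw [Nat.cast_sub hab]
    linarith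
  -- large parameters
  by_cases hFA : N ^ A < F
  · refine htriv.trans ?_
    have h1 : N ^ (1 / 2 : ℝ) ≤ F ^ ε := by
      calc N ^ (1 / 2 : ℝ) ≤ N ^ (ε * A) := Real.rpow_le_rpow_of_exponent_le hN1 hA
        _ = (N ^ A) ^ ε := by
            rw [mul_comm ε, Real.rpow_mul hN0.le, Real.rpow_natCast]
        _ ≤ F ^ ε := Real.rpow_le_rpow (by positivity) hFA.le hε.le
    have h2 : N ≤ Y := by
      calc N = N ^ (1 / 2 : ℝ) * N ^ (1 / 2 : ℝ) := by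
            rw [← Real.rpow_add hN0]; norm_num
        _ ≤ Y := by
            rw [hY]
            exact mul_le_mul_of_nonneg_left h1 (by positivity)
    nlinarith
  push Not at hFA
  -- small N
  by_cases hsmall : a < M₀
  · refine htriv.trans ?_
    have h1 : (a : ℝ) ≤ M₀ := by exact_mod_cast hsmall.le
    nlinarith
  push Not at hsmall
  have haN₀ : N₀ ≤ a := by omega
  have haCm : Cm + 1 ≤ a := by
    have h1 : Cm ≤ ⌈Cm⌉₊ := Nat.le_ceil _
    have h2 : ((⌈Cm⌉₊ + 1 : ℕ) : ℝ) ≤ a := by exact_mod_cast (by omega : ⌈Cm⌉₊ + 1 ≤ a)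
    push_cast at h2
    linarith
  have hgood := hN₀ a haN₀
  have ha0 : (0 : ℝ) < a := by linarith
  have ha1 : (1 : ℝ) ≤ a := by linarith
  have hb2 : (b : ℝ) ≤ 2 * N := by linarith
  -- the mean
  have hmean : ‖∑ n ∈ Finset.Ico a b, mn ρ f n‖ ≤ Λ * (8 / Real.sqrt (cc 2)) * Y := by
    have hcont : ContinuousOn (iteratedDerivWithin 2 f (Set.Icc N (2 * N))) (Set.Icc N (2 * N)) :=
      cont_iter hf (by linarith) 2
    have hm : 0 < cc 2 * F / N ^ 2 := by have := hcc 2; positivity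
    have hsgn := sign_const hcont hm (fun x hx => (hbd 2 x hx).1)
    have hsub : Set.Ioo (a : ℝ) b ⊆ Set.Ioo N (2 * N) := Set.Ioo_subset_Ioo haN hb2
    have hsub' : Set.Ioo (a : ℝ) b ⊆ Set.Icc N (2 * N) := hsub.trans Set.Ioo_subset_Icc_self
    have h1 := norm_sum_mn hd (f := f) (f1 := iteratedDerivWithin 1 f (Set.Icc N (2 * N)))
      (f2 := iteratedDerivWithin 2 f (Set.Icc N (2 * N))) hab hm
      (hf.continuousOn.mono (Set.Icc_subset_Icc haN hb2))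
      (fun x hx => by
        have := hasDerivAt_iter hf 0 (hsub hx)
        rwa [iteratedDerivWithin_zero] at this)
      (fun x hx => hasDerivAt_iter hf 1 (hsub hx)) (hcont.mono hsub')
      (by
        rcases hsgn with h | h
        · exact Or.inl fun x hx => h x (hsub' hx)
        · exact Or.inr fun x hx => h x (hsub' hx))
    rw [← hΛ] at h1
    refine h1.trans ?_
    rw [mul_assoc]
    refine mul_le_mul_of_nonneg_left ?_ hΛ0
    have h2 : Real.sqrt (cc 2) / N ^ (1 / 2 : ℝ) ≤ Real.sqrt (cc 2 * F / N ^ 2) := by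
      rw [← Real.sqrt_eq_rpow, ← Real.sqrt_div (hcc 2).le]
      refine Real.sqrt_le_sqrt ?_
      rw [div_le_div_iff₀ hN0 (by positivity)]
      have h3 := mul_le_mul_of_nonneg_left hNF (mul_pos (hcc 2) hN0).le
      calc cc 2 * N ^ 2 = cc 2 * N * N := by ring
        _ ≤ cc 2 * N * F := h3
        _ = cc 2 * F * N := by ring
    calc 8 / Real.sqrt (cc 2 * F / N ^ 2) ≤ 8 / (Real.sqrt (cc 2) / N ^ (1 / 2 : ℝ)) :=
          div_le_div_of_nonneg_left (by norm_num) (by positivity) h2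
      _ = 8 / Real.sqrt (cc 2) * N ^ (1 / 2 : ℝ) := by field_simp
      _ ≤ 8 / Real.sqrt (cc 2) * Y := mul_le_mul_of_nonneg_left hYN (by positivity)
  -- the deviation
  obtain ⟨H, hH⟩ : ∃ H : ℕ, H = ⌈N ^ (1 - δ)⌉₊ := ⟨_, rfl⟩
  have hNd1 : 1 ≤ N ^ (1 - δ) := Real.one_le_rpow hN1 (by linarith)
  have hH1 : N ^ (1 - δ) ≤ H := by rw [hH]; exact Nat.le_ceil _
  have hH2 : (H : ℝ) ≤ 2 * N ^ (1 - δ) := by
    have : (H : ℝ) < N ^ (1 - δ) + 1 := by rw [hH]; exact Nat.ceil_lt_add_one (by linarith)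
    linarith
  have hH0 : (0 : ℝ) < H := by linarith
  have hH1' : 1 ≤ H := by
    have : (0 : ℝ) < H := hH0
    exact_mod_cast this
  have hHa : H ≤ a := by
    rw [hH, ha]
    apply Nat.ceil_mono
    calc N ^ (1 - δ) ≤ N ^ (1 : ℝ) := Real.rpow_le_rpow_of_exponent_le hN1 (by linarith)
      _ = N := Real.rpow_one N
  obtain ⟨K1, hK1⟩ : ∃ K1 : ℝ, K1 = (a : ℝ) ^ (1 / 2 + δ) + K2 := ⟨_, rfl⟩
  have hK10 : 0 ≤ K1 := by rw [hK1]; positivity
  have hblock : ∀ u v, a ≤ u → u < v → v ≤ b → v ≤ u + H → ‖dev ρ θ f u v‖ ≤ K1 := by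
    intro u v hu huv hvb hvH
    have huN : N ≤ u := haN.trans (by exact_mod_cast hu)
    have hvN : (v : ℝ) ≤ 2 * N := le_trans (by exact_mod_cast hvb) hb2
    have huv' : (u : ℝ) < v := by exact_mod_cast huv
    have hvH' : (v : ℝ) - u ≤ H := by
      have : (v : ℝ) ≤ u + H := by exact_mod_cast hvH
      linarith
    have hD : ∀ k ≤ P, |iteratedDerivWithin k f (Set.Icc N (2 * N)) u| ≤ Cm * F := by
      intro k hk
      have h1 := (hbd k u ⟨huN, by linarith⟩).2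
      have h2 : CC k ≤ Cm := by
        rw [hCm]
        exact single_le_sum (f := CC) (fun j _ => (hCC j).le) (mem_range.2 (by omega))
      have h3 : CC k * F / N ^ k ≤ CC k * F :=
        div_le_self (mul_nonneg (hCC k).le hF0.le) (one_le_pow₀ hN1)
      exact h1.trans (h3.trans (mul_le_mul_of_nonneg_right h2 hF0.le))
    obtain ⟨k, hk, happ⟩ := approx_block (C := CC (P + 1) * F / N ^ (P + 1)) (D := Cm * F) (n := P) (M := a)
      hf huN huv hvN (by exact_mod_cast ha1) (hvH.trans (by omega)) (fun y hy => (hbd (P + 1) y hy).2) hD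
    have hkB : ∀ j, |k j| ≤ (a : ℤ) ^ (P + 2 + A + 1) := by
      intro j
      have h1 := hk j
      have h2 : F ≤ (a : ℝ) ^ A := hFA.trans (pow_le_pow_left₀ hN0.le haN A)
      have h3 : (a : ℝ) ^ (P + 2) * (Cm * F) + 1 ≤ (a : ℝ) ^ (P + 2 + A + 1) := by
        have h4 : (a : ℝ) ^ (P + 2) * (Cm * F) ≤ (a : ℝ) ^ (P + 2) * (Cm * (a : ℝ) ^ A) := by gcongr
        have h5 : (1 : ℝ) ≤ (a : ℝ) ^ (P + 2) * (a : ℝ) ^ A := by
          rw [← pow_add]; exact one_le_pow₀ ha1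
        calc (a : ℝ) ^ (P + 2) * (Cm * F) + 1 ≤ (a : ℝ) ^ (P + 2) * (Cm * (a : ℝ) ^ A) +
              (a : ℝ) ^ (P + 2) * (a : ℝ) ^ A := add_le_add h4 h5
          _ = (a : ℝ) ^ (P + 2) * (a : ℝ) ^ A * (Cm + 1) := by ring
          _ ≤ (a : ℝ) ^ (P + 2) * (a : ℝ) ^ A * a := mul_le_mul_of_nonneg_left haCm (by positivity)
          _ = _ := by rw [← pow_add, ← pow_succ]
      have h6 : ((|k j| : ℤ) : ℝ) ≤ (((a : ℤ) ^ (P + 2 + A + 1) : ℤ) : ℝ) := by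
        push_cast
        exact h1.trans h3
      exact_mod_cast h6
    have hvu2 : u ≤ 2 * a ∧ v ≤ 2 * a := by
      have h1 : (b : ℝ) ≤ ((2 * a : ℕ) : ℝ) := by push_cast; linarith
      have h2 : b ≤ 2 * a := by exact_mod_cast h1
      constructor <;> omega
    have h1 := hgood u v hvu2.1 hvu2.2 k hkB
    have h2 := dev_close hd hθ (s := f u) (hf.continuousOn.mono (Set.Icc_subset_Icc huN hvN)) (gk_cont _ _ _ _) happ
    refine h2.trans ?_
    rw [hK1]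
    refine add_le_add h1 ?_
    rw [hK2, Nat.cast_sub huv.le]
    have h3 : CC (P + 1) * F / N ^ (P + 1) * ((v : ℝ) - u) ^ (P + 1) ≤ CC (P + 1) * 2 ^ (P + 1) / N := by
      have h4 : ((v : ℝ) - u) ^ (P + 1) ≤ 2 ^ (P + 1) * N ^ ((1 - δ) * ((P : ℝ) + 1)) := by
        calc ((v : ℝ) - u) ^ (P + 1) ≤ (2 * N ^ (1 - δ)) ^ (P + 1) :=
              pow_le_pow_left₀ (by linarith) (hvH'.trans hH2) _
          _ = _ := by
              rw [mul_pow, ← Real.rpow_natCast (N ^ (1 - δ)), ← Real.rpow_mul hN0.le]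
              push_cast
              ring
      have h5 : F / N ^ (P + 1) ≤ N ^ ((A : ℝ) - ((P : ℝ) + 1)) := by
        rw [Real.rpow_sub hN0, Real.rpow_natCast]
        have : N ^ ((P : ℝ) + 1) = N ^ (P + 1) := by
          rw [← Real.rpow_natCast]; push_cast; ring
        rw [this]
        exact div_le_div_of_nonneg_right hFA (by positivity)
      have h6 : N ^ ((A : ℝ) - ((P : ℝ) + 1)) * N ^ ((1 - δ) * ((P : ℝ) + 1)) ≤ 1 / N := by
        rw [← Real.rpow_add hN0, one_div, ← Real.rpow_neg_one]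
        refine Real.rpow_le_rpow_of_exponent_le hN1 ?_
        nlinarith
      have hCP := hCC (P + 1)
      calc CC (P + 1) * F / N ^ (P + 1) * ((v : ℝ) - u) ^ (P + 1)
          = CC (P + 1) * ((F / N ^ (P + 1)) * ((v : ℝ) - u) ^ (P + 1)) := by ring
        _ ≤ CC (P + 1) * (N ^ ((A : ℝ) - ((P : ℝ) + 1)) * (2 ^ (P + 1) * N ^ ((1 - δ) * ((P : ℝ) + 1)))) := by
            refine mul_le_mul_of_nonneg_left ?_ hCP.le
            exact mul_le_mul h5 h4 (pow_nonneg (by linarith) _) (by positivity)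
        _ = CC (P + 1) * 2 ^ (P + 1) * (N ^ ((A : ℝ) - ((P : ℝ) + 1)) * N ^ ((1 - δ) * ((P : ℝ) + 1))) := by ring
        _ ≤ CC (P + 1) * 2 ^ (P + 1) * (1 / N) := mul_le_mul_of_nonneg_left h6 (by positivity)
        _ = _ := by ring
    have h7 : (v : ℝ) - u ≤ a := hvH'.trans (by exact_mod_cast hHa)
    have hpi := Real.pi_pos
    have hCP := hCC (P + 1)
    calc 4 * Real.pi * (CC (P + 1) * F / N ^ (P + 1) * ((v : ℝ) - u) ^ (P + 1) + P / (a : ℝ) ^ 2) * ((v : ℝ) - u)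
        ≤ 4 * Real.pi * (CC (P + 1) * 2 ^ (P + 1) / N + P / (a : ℝ) ^ 2) * a := by
          have h8 : 0 ≤ (v : ℝ) - u := by linarith
          have h9 : 0 ≤ CC (P + 1) * 2 ^ (P + 1) / N + P / (a : ℝ) ^ 2 := by positivity
          gcongr
      _ = 4 * Real.pi * (CC (P + 1) * 2 ^ (P + 1) * (a / N) + P / a) := by
          field_simp
      _ ≤ 4 * Real.pi * (CC (P + 1) * 2 ^ (P + 1) * 2 + P) := by
          have h10 : (a : ℝ) / N ≤ 2 := by
            rw [div_le_iff₀ hN0]; linarith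
          have h11 : (P : ℝ) / a ≤ P := div_le_self (Nat.cast_nonneg _) ha1
          gcongr
      _ = _ := by rw [pow_succ 2 (P + 1)]; ring
  have hdev : ‖dev ρ θ f a b‖ ≤ 2 * (4 + K2) * Y := by
    have h1 := blocks hH1' hK10 hblock (b - a) a le_rfl (by omega)
    rw [show a + (b - a) = b by omega] at h1
    refine h1.trans ?_
    have h2 : ((b - a : ℕ) : ℝ) / H ≤ N ^ δ := by
      rw [Nat.cast_sub hab, div_le_iff₀ hH0]
      have h3 : N ^ δ * N ^ (1 - δ) = N := by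
        rw [← Real.rpow_add hN0]
        norm_num
      have h4 : N ^ δ * N ^ (1 - δ) ≤ N ^ δ * H := mul_le_mul_of_nonneg_left hH1 (by positivity)
      linarith
    have h5 : 1 ≤ N ^ δ := Real.one_le_rpow hN1 hδ0.le
    have h6 : (a : ℝ) ^ (1 / 2 + δ) ≤ 4 * N ^ (1 / 2 + δ) := by
      calc (a : ℝ) ^ (1 / 2 + δ) ≤ (2 * N) ^ (1 / 2 + δ) :=
            Real.rpow_le_rpow ha0.le (by linarith) (by linarith)
        _ = 2 ^ (1 / 2 + δ) * N ^ (1 / 2 + δ) := Real.mul_rpow (by norm_num) hN0.le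
        _ ≤ 2 ^ (2 : ℝ) * N ^ (1 / 2 + δ) := by
            refine mul_le_mul_of_nonneg_right ?_ (by positivity)
            exact Real.rpow_le_rpow_of_exponent_le (by norm_num) (by linarith)
        _ = _ := by norm_num
    have h7 : 1 ≤ N ^ (1 / 2 + δ) := Real.one_le_rpow hN1 (by linarith)
    have h8 : K1 ≤ (4 + K2) * N ^ (1 / 2 + δ) := by
      rw [hK1]
      nlinarith
    have h9 : N ^ δ * N ^ (1 / 2 + δ) ≤ Y := by
      rw [← Real.rpow_add hN0, hY]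
      calc N ^ (δ + (1 / 2 + δ)) = N ^ (1 / 2 : ℝ) * N ^ (2 * δ) := by
            rw [← Real.rpow_add hN0]; congr 1; ring
        _ ≤ N ^ (1 / 2 : ℝ) * F ^ ε := by
            refine mul_le_mul_of_nonneg_left ?_ (by positivity)
            calc N ^ (2 * δ) ≤ N ^ ε := Real.rpow_le_rpow_of_exponent_le hN1 hδε
              _ ≤ F ^ ε := Real.rpow_le_rpow hN0.le hNF hε.le
    calc (((b - a : ℕ) : ℝ) / H + 1) * K1 ≤ (N ^ δ + N ^ δ) * ((4 + K2) * N ^ (1 / 2 + δ)) :=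
          mul_le_mul (add_le_add h2 h5) h8 hK10 (by positivity)
      _ = 2 * (4 + K2) * (N ^ δ * N ^ (1 / 2 + δ)) := by ring
      _ ≤ 2 * (4 + K2) * Y := mul_le_mul_of_nonneg_left h9 hterm1
  have hfin : ∑ n ∈ Finset.Ico a b, ee (f ((n : ℝ) + θ n)) = dev ρ θ f a b + ∑ n ∈ Finset.Ico a b, mn ρ f n := by
    unfold dev
    rw [← sum_add_distrib]
    refine sum_congr rfl fun n _ => ?_
    ring
  rw [hfin]
  refine (norm_add_le _ _).trans ?_
  have : 0 ≤ ((M₀ : ℝ) + 1) * Y := by positivity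
  linarith

end

end Pool.Agent.U803.EP
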