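import Pool.Agent.U803.EP.Prob
import Pool.Agent.Helper276.VdC

/-!
# Exponential sums along random perturbations of the integers: the mean
-/

set_option autoImplicit false

namespace Pool.Agent.U803.EP

open MeasureTheory ProbabilityTheory Finset
open Pool.Agent.U160.VP

noncomputable section

/-- the second derivative test on an open interval -/
theorem vdc_open {ψ ψ1 ψ2 : ℝ → ℝ} {a b m : ℝ} (hab : a ≤ b) (hm : 0 < m)
    (h1 : ∀ x ∈ Set.Ioo a b, HasDerivAt ψ (ψ1 x) x)
    (h2 : ∀ x ∈ Set.Ioo a b, HasDerivAt ψ1 (ψ2 x) x)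
    (h2c : ContinuousOn ψ2 (Set.Ioo a b))
    (hlow : (∀ x ∈ Set.Ioo a b, m ≤ ψ2 x) ∨ ∀ x ∈ Set.Ioo a b, ψ2 x ≤ -m) :
    ‖∫ x in a..b, Complex.exp (Complex.I * (ψ x : ℂ))‖ ≤ 8 / Real.sqrt m := by
  obtain ⟨F, hF⟩ : ∃ F : ℝ → ℂ, F = fun x => Complex.exp (Complex.I * (ψ x : ℂ)) := ⟨_, rfl⟩
  have hFn : ∀ x, ‖F x‖ = 1 := by
    intro x
    rw [hF]
    show ‖Complex.exp (Complex.I * (ψ x : ℂ))‖ = 1
    rw [mul_comm]
    exact Complex.norm_exp_ofReal_mul_I _
  rw [← hF]
  rcases hab.eq_or_lt with hab' | hab'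
  · rw [hab', intervalIntegral.integral_same, norm_zero]
    positivity
  have hψc : ContinuousOn ψ (Set.Ioo a b) := fun x hx => (h1 x hx).continuousAt.continuousWithinAt
  have hFc : ContinuousOn F (Set.Ioo a b) := by
    rw [hF]
    fun_prop
  have hFi : IntegrableOn F (Set.Ioo a b) := by
    refine IntegrableOn.of_bound (by simp) (hFc.aestronglyMeasurable measurableSet_Ioo) 1 ?_
    exact Filter.Eventually.of_forall fun x => (hFn x).le
  have hFI : IntervalIntegrable F volume a b := by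
    rw [intervalIntegrable_iff_integrableOn_Ioo_of_le hab]
    exact hFi
  refine le_of_forall_pos_le_add fun η hη => ?_
  obtain ⟨δ, hδ0, hδ1, hδ2⟩ : ∃ δ : ℝ, 0 < δ ∧ 2 * δ ≤ η ∧ 2 * δ < b - a :=
    ⟨min (η / 2) ((b - a) / 4), lt_min (by linarith) (by linarith),
      by linarith [min_le_left (η / 2) ((b - a) / 4)], by linarith [min_le_right (η / 2) ((b - a) / 4)]⟩
  have hsub : ∀ u v, a ≤ u → u ≤ v → v ≤ b → IntervalIntegrable F volume u v := fun u v hu huv hv =>
    hFI.mono_set (by rw [Set.uIcc_of_le huv, Set.uIcc_of_le hab]; exact Set.Icc_subset_Icc hu hv)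
  have hs1 : ∫ x in a..b, F x = (∫ x in a..(a + δ), F x) + ((∫ x in (a + δ)..(b - δ), F x) + ∫ x in (b - δ)..b, F x) := by
    rw [intervalIntegral.integral_add_adjacent_intervals (hsub _ _ (by linarith) (by linarith) (by linarith))
      (hsub _ _ (by linarith) (by linarith) (by linarith)),
      intervalIntegral.integral_add_adjacent_intervals (hsub _ _ (by linarith) (by linarith) (by linarith))
      (hsub _ _ (by linarith) (by linarith) (by linarith))]
  have ht : ∀ u v, u ≤ v → ‖∫ x in u..v, F x‖ ≤ v - u := by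
    intro u v huv
    have := intervalIntegral.norm_integral_le_of_norm_le_const (a := u) (b := v) (f := F) (C := 1)
      (fun x _ => (hFn x).le)
    rwa [abs_of_nonneg (by linarith), one_mul] at this
  have hmid : ‖∫ x in (a + δ)..(b - δ), F x‖ ≤ 8 / Real.sqrt m := by
    have hsub2 : Set.Icc (a + δ) (b - δ) ⊆ Set.Ioo a b := by
      rintro x ⟨hx1, hx2⟩
      exact ⟨by linarith, by linarith⟩
    rw [hF]
    rcases hlow with hlow | hlow
    · exact Pool.Agent.Helper276.VdC.second_test_pos (by linarith) hm (fun x hx => h1 x (hsub2 hx))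
        (fun x hx => h2 x (hsub2 hx)) (h2c.mono hsub2) (fun x hx => hlow x (hsub2 hx))
    · exact Pool.Agent.Helper276.VdC.second_test_neg (by linarith) hm (fun x hx => h1 x (hsub2 hx))
        (fun x hx => h2 x (hsub2 hx)) (h2c.mono hsub2) (fun x hx => hlow x (hsub2 hx))
  rw [hs1]
  have e1 := ht a (a + δ) (by linarith)
  have e2 := ht (b - δ) b (by linarith)
  have e3 := norm_add_le (∫ x in a..(a + δ), F x) ((∫ x in (a + δ)..(b - δ), F x) + ∫ x in (b - δ)..b, F x)
  have e4 := norm_add_le (∫ x in (a + δ)..(b - δ), F x) (∫ x in (b - δ)..b, F x)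
  linarith

/-- the mean of the exponential sum is a combination of oscillatory integrals -/
theorem hasSum_mn {ρ : ℝ → ℝ} {c : ℤ → ℂ} (hd : Dens ρ c) {f : ℝ → ℝ} (n : ℕ)
    (hf : ContinuousOn f (Set.Icc (n : ℝ) (n + 1))) :
    HasSum (fun h : ℤ => c h * ∫ x in (n : ℝ)..((n : ℝ) + 1), ee (f x + h * x)) (mn ρ f n) := by
  have hf' : ContinuousOn (fun u : ℝ => f ((n : ℝ) + u)) (Set.Icc (0 : ℝ) 1) := by
    refine hf.comp (by fun_prop) ?_
    rintro u ⟨hu1, hu2⟩
    exact ⟨by linarith, by linarith⟩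
  have hcont : ∀ h : ℤ, ContinuousOn (fun u : ℝ => c h * ee (f ((n : ℝ) + u) + h * ((n : ℝ) + u)))
      (Set.Icc (0 : ℝ) 1) := by
    intro h
    refine continuousOn_const.mul (pkgD_ee_cont.comp_continuousOn (hf'.add ?_))
    fun_prop
  have key := hasSum_integral_of_summable_integral_norm
    (μ := (volume : Measure ℝ).restrict (Set.Icc (0 : ℝ) 1))
    (F := fun (h : ℤ) (u : ℝ) => c h * ee (f ((n : ℝ) + u) + h * ((n : ℝ) + u)))
    (fun h => (hcont h).integrableOn_Icc) ?_
  · have e1 : ∫ u in Set.Icc (0 : ℝ) 1, ∑' h : ℤ, c h * ee (f ((n : ℝ) + u) + h * ((n : ℝ) + u)) = mn ρ f n := by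
      unfold mn
      refine setIntegral_congr_fun measurableSet_Icc fun u hu => ?_
      rw [hd.expansion u hu, ← tsum_mul_right]
      refine tsum_congr fun h => ?_
      have : ee (f ((n : ℝ) + u) + h * ((n : ℝ) + u)) = ee (h * u) * ee (f ((n : ℝ) + u)) := by
        rw [pkgD_ee_add, mul_add, pkgD_ee_add]
        have : ee ((h : ℝ) * (n : ℝ)) = 1 := by
          have := pkgD_ee_int (h * n)
          push_cast at this
          exact this
        rw [this]; ring
      rw [this]; ring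
    rw [e1] at key
    have e2 : ∀ h : ℤ, ∫ u in Set.Icc (0 : ℝ) 1, c h * ee (f ((n : ℝ) + u) + h * ((n : ℝ) + u)) =
        c h * ∫ x in (n : ℝ)..((n : ℝ) + 1), ee (f x + h * x) := by
      intro h
      rw [integral_const_mul]
      congr 1
      rw [integral_Icc_eq_integral_Ioc, ← intervalIntegral.integral_of_le zero_le_one,
        intervalIntegral.integral_comp_add_left (fun x => ee (f x + h * x)) (n : ℝ), add_zero]
    simpa only [e2] using key
  · refine hd.summable.congr fun h => ?_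
    simp only [norm_mul, pkgD_ee_norm, mul_one]
    simp

/-- the mean of the exponential sum -/
theorem norm_sum_mn {ρ : ℝ → ℝ} {c : ℤ → ℂ} (hd : Dens ρ c) {f f1 f2 : ℝ → ℝ} {a b : ℕ} {m : ℝ} (hab : a ≤ b)
    (hm : 0 < m) (hf : ContinuousOn f (Set.Icc (a : ℝ) b))
    (h1 : ∀ x ∈ Set.Ioo (a : ℝ) b, HasDerivAt f (f1 x) x)
    (h2 : ∀ x ∈ Set.Ioo (a : ℝ) b, HasDerivAt f1 (f2 x) x)
    (h2c : ContinuousOn f2 (Set.Ioo (a : ℝ) b))
    (hlow : (∀ x ∈ Set.Ioo (a : ℝ) b, m ≤ f2 x) ∨ ∀ x ∈ Set.Ioo (a : ℝ) b, f2 x ≤ -m) :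
    ‖∑ n ∈ Finset.Ico a b, mn ρ f n‖ ≤ (∑' h, ‖c h‖) * (8 / Real.sqrt m) := by
  have hs : HasSum (fun h : ℤ => c h * ∫ x in (a : ℝ)..(b : ℝ), ee (f x + h * x))
      (∑ n ∈ Finset.Ico a b, mn ρ f n) := by
    have h3 := hasSum_sum (s := Finset.Ico a b) (fun n hn => hasSum_mn hd n (hf.mono (by
      rw [mem_Ico] at hn
      refine Set.Icc_subset_Icc (by exact_mod_cast hn.1) ?_
      have : n + 1 ≤ b := hn.2
      exact_mod_cast this)))
    have e3 : ∀ h : ℤ, ∑ n ∈ Finset.Ico a b, c h * ∫ x in (n : ℝ)..((n : ℝ) + 1), ee (f x + h * x) =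
        c h * ∫ x in (a : ℝ)..(b : ℝ), ee (f x + h * x) := by
      intro h
      rw [← Finset.mul_sum]
      congr 1
      have h4 := intervalIntegral.sum_integral_adjacent_intervals_Ico (μ := volume)
        (f := fun x => ee (f x + h * x)) (a := fun n : ℕ => (n : ℝ)) (m := a) (n := b) hab ?_
      · push_cast at h4
        exact h4
      · intro n hn
        rw [Set.mem_Ico] at hn
        refine ContinuousOn.intervalIntegrable ?_
        rw [Set.uIcc_of_le (by exact_mod_cast Nat.le_succ n)]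
        refine pkgD_ee_cont.comp_continuousOn (ContinuousOn.add (hf.mono ?_) (by fun_prop))
        refine Set.Icc_subset_Icc (by exact_mod_cast hn.1) ?_
        have : n + 1 ≤ b := hn.2
        exact_mod_cast this
    simpa only [e3] using h3
  rw [← hs.tsum_eq]
  have hI : ∀ h : ℤ, ‖∫ x in (a : ℝ)..(b : ℝ), ee (f x + h * x)‖ ≤ 8 / Real.sqrt m := by
    intro h
    have hpi : (1 : ℝ) ≤ 2 * Real.pi := by linarith [Real.pi_gt_three]
    have e4 : ∀ x, ee (f x + h * x) = Complex.exp (Complex.I * ((2 * Real.pi * (f x + h * x) : ℝ) : ℂ)) := by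
      intro x
      unfold ee
      congr 1
      push_cast
      ring
    simp only [e4]
    refine (vdc_open (ψ1 := fun x => 2 * Real.pi * (f1 x + h)) (ψ2 := fun x => 2 * Real.pi * f2 x)
      (m := m) (by exact_mod_cast hab) hm ?_ ?_ ?_ ?_)
    · intro x hx
      have h5 : HasDerivAt (fun x : ℝ => (h : ℝ) * x) (h : ℝ) x := by
        simpa using (hasDerivAt_id x).const_mul (h : ℝ)
      exact ((h1 x hx).add h5).const_mul _
    · intro x hx
      have h5 := ((h2 x hx).add_const (h : ℝ)).const_mul (2 * Real.pi)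
      exact h5
    · exact continuousOn_const.mul h2c
    · rcases hlow with hlow | hlow
      · left
        intro x hx
        have := hlow x hx
        nlinarith
      · right
        intro x hx
        have := hlow x hx
        nlinarith
  have hsum : Summable fun h : ℤ => ‖c h‖ * (8 / Real.sqrt m) := hd.summable.mul_right _
  have h6 : ∀ h : ℤ, ‖c h * ∫ x in (a : ℝ)..(b : ℝ), ee (f x + h * x)‖ ≤ ‖c h‖ * (8 / Real.sqrt m) := by
    intro h
    rw [norm_mul]
    exact mul_le_mul_of_nonneg_left (hI h) (norm_nonneg _)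
  refine (tsum_of_norm_bounded hsum.hasSum h6).trans (le_of_eq ?_)
  rw [tsum_mul_right]

end

end Pool.Agent.U803.EP
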