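import Pool.Agent.U803.EP.Def
import Pool.Agent.U160.VP.PkgF3
import Pool.Agent.U160.VP.PkgD

/-!
# Exponential sums along random perturbations of the integers: the deviations
-/

set_option autoImplicit false

namespace Pool.Agent.U803.EP

open MeasureTheory ProbabilityTheory Finset
open Pool.Agent.U160.VP

noncomputable section

theorem integrable_rho {ρ : ℝ → ℝ} {c : ℤ → ℂ} (hd : Dens ρ c) :
    IntegrableOn ρ (Set.Icc (0 : ℝ) 1) := by
  by_contra h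
  have h1 := hd.mass
  rw [integral_undef h] at h1
  exact zero_ne_one h1

theorem integral_law {ρ : ℝ → ℝ} {c : ℤ → ℂ} (hd : Dens ρ c) (g : ℝ → ℂ) :
    ∫ x, g x ∂(law ρ) = ∫ u in Set.Icc (0 : ℝ) 1, (ρ u : ℂ) * g u := by
  unfold law
  rw [integral_withDensity_eq_integral_toReal_smul (hd.meas.ennreal_ofReal) (by simp)]
  refine integral_congr_ae (Filter.Eventually.of_forall fun u => ?_)
  simp only
  rw [ENNReal.toReal_ofReal (hd.nonneg u)]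
  exact Complex.real_smul

theorem gk_cont (B' N a : ℕ) {P : ℕ} (k : Fin P → ℤ) : Continuous (gk B' N a k) := by
  unfold gk
  fun_prop

section prob

variable {Ω : Type} [MeasurableSpace Ω] {μ : Measure Ω} [IsProbabilityMeasure μ] {X : ℕ → Ω → ℝ}
  {ρ : ℝ → ℝ} {c : ℤ → ℂ}

theorem mean_eq (hd : Dens ρ c) (hX : ∀ n, Measurable (X n)) (hl : ∀ n, μ.map (X n) = law ρ) {g : ℝ → ℝ}
    (hg : Continuous g) (n : ℕ) : ∫ ω, ee (g ((n : ℝ) + X n ω)) ∂μ = mn ρ g n := by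
  unfold mn
  rw [← integral_law hd (fun u => ee (g ((n : ℝ) + u))), ← hl n,
    integral_map (hX n).aemeasurable]
  exact (pkgD_ee_cont.comp (hg.comp (by fun_prop))).aestronglyMeasurable

/-- moments of the deviation -/
theorem moment (hd : Dens ρ c) (hX : ∀ n, Measurable (X n)) (hi : iIndepFun X μ)
    (hl : ∀ n, μ.map (X n) = law ρ) (m : ℕ) : ∃ C : ℝ, 0 < C ∧ ∀ g : ℝ → ℝ, Continuous g → ∀ a b : ℕ,
    ∫ ω, ‖dev ρ (fun n => X n ω) g a b‖ ^ (2 * m) ∂μ ≤ C * (b : ℝ) ^ m := by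
  obtain ⟨C, hC, h⟩ := t_F3 m
  refine ⟨C, hC, fun g hg a b => ?_⟩
  have hY : ∀ n : ℕ, Measurable (fun x : ℝ => ee (g ((n : ℝ) + x))) := fun n =>
    (pkgD_ee_cont.comp (hg.comp (by fun_prop))).measurable
  have h1 := h Ω μ (fun n ω => ee (g ((n : ℝ) + X n ω))) (fun n => (hY n).comp (hX n))
    (hi.comp (fun n x => ee (g ((n : ℝ) + x))) hY) (fun n ω => (pkgD_ee_norm _).le) (Finset.Ico a b)
  have h2 : ∀ ω, dev ρ (fun n => X n ω) g a b = ∑ n ∈ Finset.Ico a b, (ee (g ((n : ℝ) + X n ω)) -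
      ∫ ω', ee (g ((n : ℝ) + X n ω')) ∂μ) := by
    intro ω
    unfold dev
    refine sum_congr rfl fun n _ => ?_
    rw [mean_eq hd hX hl hg n]
  simp only [h2]
  refine h1.trans ?_
  refine mul_le_mul_of_nonneg_left ?_ hC.le
  refine pow_le_pow_left₀ (by positivity) ?_ m
  rw [Nat.card_Ico]
  exact_mod_cast Nat.sub_le b a

theorem dev_meas (hX : ∀ n, Measurable (X n)) {g : ℝ → ℝ} (hg : Continuous g) (a b : ℕ) :
    Measurable (fun ω => dev ρ (fun n => X n ω) g a b) := by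
  unfold dev
  refine Finset.measurable_sum _ fun n _ => Measurable.sub_const ?_ _
  exact (pkgD_ee_cont.comp (hg.comp (by fun_prop : Continuous fun x : ℝ => (n : ℝ) + x))).measurable.comp (hX n)

theorem norm_mn_le (hd : Dens ρ c) (g : ℝ → ℝ) (n : ℕ) : ‖mn ρ g n‖ ≤ 1 := by
  unfold mn
  have h1 : ∫ u in Set.Icc (0 : ℝ) 1, ‖(ρ u : ℂ) * ee (g ((n : ℝ) + u))‖ = ∫ u in Set.Icc (0 : ℝ) 1, ρ u := by
    refine integral_congr_ae (Filter.Eventually.of_forall fun u => ?_)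
    simp only
    rw [norm_mul, pkgD_ee_norm, mul_one, Complex.norm_real, Real.norm_of_nonneg (hd.nonneg u)]
  exact (norm_integral_le_integral_norm _).trans (le_of_eq (h1.trans hd.mass))

theorem norm_dev_le (hd : Dens ρ c) (θ : ℕ → ℝ) (g : ℝ → ℝ) (a b : ℕ) :
    ‖dev ρ θ g a b‖ ≤ 2 * ((b - a : ℕ) : ℝ) := by
  unfold dev
  refine (norm_sum_le _ _).trans ?_
  have : ∀ n ∈ Finset.Ico a b, ‖ee (g ((n : ℝ) + θ n)) - mn ρ g n‖ ≤ 2 := by
    intro n _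
    refine (norm_sub_le _ _).trans ?_
    rw [pkgD_ee_norm]
    linarith [norm_mn_le hd g n]
  refine (sum_le_card_nsmul _ _ _ this).trans (le_of_eq ?_)
  rw [Nat.card_Ico, nsmul_eq_mul, mul_comm]

/-- one deviation is rarely large -/
theorem rare (hd : Dens ρ c) (hX : ∀ n, Measurable (X n)) (hi : iIndepFun X μ)
    (hl : ∀ n, μ.map (X n) = law ρ) (m : ℕ) : ∃ C : ℝ, 0 < C ∧ ∀ g : ℝ → ℝ, Continuous g → ∀ N b a : ℕ, 1 ≤ N →
    b ≤ 2 * N → ∀ ε : ℝ, 0 < ε →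
    μ {ω | (N : ℝ) ^ (1 / 2 + ε) < ‖dev ρ (fun n => X n ω) g a b‖} ≤
      ENNReal.ofReal (C * (N : ℝ) ^ (-(2 * ε * m))) := by
  obtain ⟨C, hC, h⟩ := moment hd hX hi hl m
  refine ⟨C * 2 ^ m, by positivity, fun g hg N b a hN hb ε hε => ?_⟩
  have hN0 : (0 : ℝ) < N := by exact_mod_cast hN
  have h1 := h g hg a b
  have hint : Integrable (fun ω => ‖dev ρ (fun n => X n ω) g a b‖ ^ (2 * m)) μ := by
    refine Integrable.of_bound ((dev_meas hX hg a b).norm.pow_const _).aestronglyMeasurable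
      ((2 * ((b - a : ℕ) : ℝ)) ^ (2 * m)) (Filter.Eventually.of_forall fun ω => ?_)
    rw [Real.norm_of_nonneg (by positivity)]
    exact pow_le_pow_left₀ (norm_nonneg _) (norm_dev_le hd _ _ _ _) _
  have h2 := mul_meas_ge_le_integral_of_nonneg (Filter.Eventually.of_forall fun ω => by positivity) hint
    (((N : ℝ) ^ (1 / 2 + ε)) ^ (2 * m))
  have h3 : μ.real {ω | (N : ℝ) ^ (1 / 2 + ε) < ‖dev ρ (fun n => X n ω) g a b‖} ≤
      μ.real {ω | ((N : ℝ) ^ (1 / 2 + ε)) ^ (2 * m) ≤ ‖dev ρ (fun n => X n ω) g a b‖ ^ (2 * m)} := by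
    refine measureReal_mono ?_
    intro ω hω
    have hω' : (N : ℝ) ^ (1 / 2 + ε) < ‖dev ρ (fun n => X n ω) g a b‖ := hω
    exact pow_le_pow_left₀ (by positivity) hω'.le _
  have h4 : (0 : ℝ) < ((N : ℝ) ^ (1 / 2 + ε)) ^ (2 * m) := by positivity
  have h5 : ((N : ℝ) ^ (1 / 2 + ε)) ^ (2 * m) = (N : ℝ) ^ m * (N : ℝ) ^ (2 * ε * m) := by
    rw [← Real.rpow_natCast, ← Real.rpow_mul hN0.le, ← Real.rpow_natCast (N : ℝ) m, ← Real.rpow_add hN0]
    congr 1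
    push_cast
    ring
  have h6 : (b : ℝ) ^ m ≤ 2 ^ m * (N : ℝ) ^ m := by
    rw [← mul_pow]
    refine pow_le_pow_left₀ (by positivity) ?_ m
    exact_mod_cast hb
  have h7 : μ.real {ω | (N : ℝ) ^ (1 / 2 + ε) < ‖dev ρ (fun n => X n ω) g a b‖} ≤
      C * 2 ^ m * (N : ℝ) ^ (-(2 * ε * m)) := by
    have h8 : ((N : ℝ) ^ (1 / 2 + ε)) ^ (2 * m) *
        μ.real {ω | (N : ℝ) ^ (1 / 2 + ε) < ‖dev ρ (fun n => X n ω) g a b‖} ≤ C * (2 ^ m * (N : ℝ) ^ m) :=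
      (mul_le_mul_of_nonneg_left h3 h4.le).trans (h2.trans (h1.trans (mul_le_mul_of_nonneg_left h6 hC.le)))
    rw [Real.rpow_neg hN0.le, ← div_eq_mul_inv, le_div_iff₀ (by positivity)]
    have h9 : (0 : ℝ) < (N : ℝ) ^ m := by positivity
    rw [h5] at h8
    have h10 : (N : ℝ) ^ m * (μ.real {ω | (N : ℝ) ^ (1 / 2 + ε) < ‖dev ρ (fun n => X n ω) g a b‖} *
        (N : ℝ) ^ (2 * ε * m)) ≤ (N : ℝ) ^ m * (C * 2 ^ m) := by
      calc _ = (N : ℝ) ^ m * (N : ℝ) ^ (2 * ε * m) *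
          μ.real {ω | (N : ℝ) ^ (1 / 2 + ε) < ‖dev ρ (fun n => X n ω) g a b‖} := by ring
        _ ≤ C * (2 ^ m * (N : ℝ) ^ m) := h8
        _ = _ := by ring
    exact le_of_mul_le_mul_left h10 h9
  rw [← ENNReal.ofReal_toReal (measure_ne_top μ _)]
  exact ENNReal.ofReal_le_ofReal h7

/-- almost surely all deviations are small -/
theorem ae_Gd (hd : Dens ρ c) (hX : ∀ n, Measurable (X n)) (hi : iIndepFun X μ)
    (hl : ∀ n, μ.map (X n) = law ρ) (P B B' : ℕ) {ε : ℝ} (hε : 0 < ε) :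
    ∀ᵐ ω ∂μ, ∀ᶠ N : ℕ in Filter.atTop, Gd ρ (fun n => X n ω) P B B' ε N := by
  classical
  obtain ⟨m, hm⟩ : ∃ m : ℕ, (2 + B * P + 2 : ℝ) ≤ 2 * ε * m := by
    obtain ⟨m, hm⟩ := exists_nat_ge ((2 + B * P + 2 : ℝ) / (2 * ε))
    refine ⟨m, ?_⟩
    rw [div_le_iff₀ (by positivity)] at hm
    linarith
  obtain ⟨C, hC, hr⟩ := rare hd hX hi hl m
  obtain ⟨T, hT⟩ : ∃ T : ℕ → Finset ((ℕ × ℕ) × (Fin P → ℤ)), T = fun N =>
    (Finset.range (2 * N + 1) ×ˢ Finset.range (2 * N + 1)) ×ˢ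
      Fintype.piFinset (fun _ : Fin P => Finset.Icc (-(N : ℤ) ^ B) ((N : ℤ) ^ B)) := ⟨_, rfl⟩
  obtain ⟨E, hE⟩ : ∃ E : ℕ → Set Ω, E = fun N => ⋃ t ∈ T N,
    {ω | (N : ℝ) ^ (1 / 2 + ε) < ‖dev ρ (fun n => X n ω) (gk B' N t.1.1 t.2) t.1.1 t.1.2‖} := ⟨_, rfl⟩
  have hcard : ∀ N : ℕ, 1 ≤ N → ((T N).card : ℝ) ≤ 9 * 3 ^ P * (N : ℝ) ^ (2 + B * P : ℝ) := by
    intro N hN
    have hN1 : (1 : ℝ) ≤ N := by exact_mod_cast hN
    have h1 : (T N).card = (2 * N + 1) * (2 * N + 1) * (2 * N ^ B + 1) ^ P := by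
      rw [hT]
      simp only [card_product, card_range, Fintype.card_piFinset, prod_const, Finset.card_univ, Fintype.card_fin,
        Int.card_Icc]
      congr 2
      have : ((N : ℤ) ^ B + 1 - -(N : ℤ) ^ B) = ((2 * N ^ B + 1 : ℕ) : ℤ) := by push_cast; ring
      rw [this, Int.toNat_natCast]
    rw [h1]
    push_cast
    have h2 : (2 * (N : ℝ) + 1) ≤ 3 * N := by linarith
    have h3 : (2 * (N : ℝ) ^ B + 1) ≤ 3 * (N : ℝ) ^ B := by
      have : (1 : ℝ) ≤ (N : ℝ) ^ B := one_le_pow₀ hN1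
      linarith
    calc (2 * (N : ℝ) + 1) * (2 * N + 1) * (2 * (N : ℝ) ^ B + 1) ^ P
        ≤ (3 * N) * (3 * N) * (3 * (N : ℝ) ^ B) ^ P := by gcongr
      _ = 9 * 3 ^ P * ((N : ℝ) ^ 2 * (N : ℝ) ^ (B * P)) := by rw [mul_pow, ← pow_mul]; ring
      _ = _ := by
          congr 1
          rw [← pow_add, ← Real.rpow_natCast]
          congr 1
          push_cast
          ring
  have hmeas : ∀ N : ℕ, 1 ≤ N → μ (E N) ≤ ENNReal.ofReal (C * (9 * 3 ^ P) * (1 / (N : ℝ) ^ 2)) := by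
    intro N hN
    have hN1 : (1 : ℝ) ≤ N := by exact_mod_cast hN
    have hN0 : (0 : ℝ) < N := by linarith
    rw [hE]
    refine (measure_biUnion_finset_le _ _).trans ?_
    have h1 : ∀ t ∈ T N, μ {ω | (N : ℝ) ^ (1 / 2 + ε) < ‖dev ρ (fun n => X n ω) (gk B' N t.1.1 t.2) t.1.1 t.1.2‖} ≤
        ENNReal.ofReal (C * (N : ℝ) ^ (-(2 * ε * m))) := by
      intro t ht
      rw [hT] at ht
      simp only [mem_product, mem_range] at ht
      exact hr _ (gk_cont _ _ _ _) N t.1.2 t.1.1 hN (by omega) ε hε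
    refine (sum_le_card_nsmul _ _ _ h1).trans ?_
    rw [nsmul_eq_mul, ← ENNReal.ofReal_natCast, ← ENNReal.ofReal_mul (by positivity)]
    refine ENNReal.ofReal_le_ofReal ?_
    have h2 : (N : ℝ) ^ (-(2 * ε * m)) ≤ (N : ℝ) ^ (-(2 + B * P + 2 : ℝ)) :=
      Real.rpow_le_rpow_of_exponent_le hN1 (by linarith)
    calc ((T N).card : ℝ) * (C * (N : ℝ) ^ (-(2 * ε * m)))
        ≤ (9 * 3 ^ P * (N : ℝ) ^ (2 + B * P : ℝ)) * (C * (N : ℝ) ^ (-(2 + B * P + 2 : ℝ))) :=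
          mul_le_mul (hcard N hN) (mul_le_mul_of_nonneg_left h2 hC.le) (by positivity) (by positivity)
      _ = C * (9 * 3 ^ P) * ((N : ℝ) ^ (2 + B * P : ℝ) * (N : ℝ) ^ (-(2 + B * P + 2 : ℝ))) := by ring
      _ = _ := by
          rw [← Real.rpow_add hN0]
          congr 1
          rw [show (2 + B * P : ℝ) + -(2 + B * P + 2 : ℝ) = -(2 : ℝ) by ring, Real.rpow_neg hN0.le, one_div]
          norm_num
  have hsum : (∑' N, μ (E (N + 1))) ≠ ⊤ := by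
    have hs : Summable fun N : ℕ => C * (9 * 3 ^ P) * (1 / ((N + 1 : ℕ) : ℝ) ^ 2) :=
      (((summable_nat_add_iff 1).2 (Real.summable_one_div_nat_pow.2 one_lt_two))).mul_left _
    refine ne_top_of_le_ne_top hs.tsum_ofReal_ne_top (ENNReal.tsum_le_tsum fun N => hmeas (N + 1) (by omega))
  filter_upwards [ae_eventually_notMem hsum] with ω hω
  rw [Filter.eventually_atTop] at hω ⊢
  obtain ⟨N₀, hN₀⟩ := hω
  refine ⟨N₀ + 1, fun N hN => ?_⟩
  obtain ⟨M, rfl⟩ : ∃ M, N = M + 1 := ⟨N - 1, by omega⟩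
  have h1 := hN₀ M (by omega)
  intro a b ha hb k hk
  by_contra hcon
  push Not at hcon
  apply h1
  rw [hE]
  simp only [Set.mem_iUnion]
  refine ⟨((a, b), k), ?_, hcon⟩
  rw [hT]
  simp only [mem_product, mem_range, Fintype.mem_piFinset, mem_Icc]
  refine ⟨⟨by omega, by omega⟩, fun j => ?_⟩
  have := abs_le.1 (hk j)
  exact this

end prob

end

end Pool.Agent.U803.EP
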